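import Pool.Agent.U222.SL.Geo

/-!
# Homological and numerical equivalence on products of all varieties with cyclic coverings of large
prime degrees

Let `κ` be a finite field with `q = c ^ f` elements and `k` its algebraic closure. Let `H` be a Weil
cohomology theory on a class of smooth proper varieties over `k`, with an algebraically closed
coefficient field, and `G` a class of varieties, closed under products, with an action of a group
`Γ` with the formal properties of a Galois action (the example: the varieties which are defined over `κ`,
and the Galois group of `κ`). Let `σ` be the (geometric) Frobenius.

Let `X_i` be varieties in `G`, of any dimensions `n_i ≥ 1`, which are models of the cyclic coverings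

  `w ^ N_i = ∏_k l_{i,k} (x) ^ a_{i,k}`   (`a_{i,k} ≥ 1`, `∑_k a_{i,k} = A_i ≥ 2`)

of the affine space of dimension `n_i`, branched along hyperplanes over `κ` (any arrangement of hyperplanes
which together with the hyperplane at infinity have no common point), where the `N_i` are different prime
numbers dividing `c - 1`: the cohomology of `X_i` is generated by classes of algebraic cycles and a part
`T` without invariants under the covering group, which is pure of weight `n_i` and satisfies the trace
formula (`IsModel`). Let `Z` be **any** variety in `G`, of any dimension, and let `b` be such that

  `N_i > A_i ^ 2 b + A_i` for all `i`, and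
  every eigenvalue of the Frobenius on the cohomology of `Z` has degree at most `2 b + 1` over `ℚ`

(this is true if all Betti numbers of `Z` are at most `2 b + 1`). Then **the conjecture D (homological and
numerical equivalence coincide) holds for the product of `Z` with finitely many pairwise different `X_i`
if and only if it holds for `Z`**. No standard conjecture, no case of the Tate conjecture and no
semisimplicity of the Frobenius is assumed for `Z` or for the `X_i`.

The condition on `Z` which is used (`IsFewBase`) is weaker: for every eigenvalue `β`, of weight `d`,
* either the minimal polynomial of `β` over `ℚ` has at most `2 b + 1` irreducible factors over the field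
  of the roots of unity of order `∏ N_i`,
* or at most `b` of the conjugates of `β` have a slope smaller than `(d - λ) / 2`, where `λ < n_i` for
  all `i` (part 2).

The hand-in `MP_f569db_ag.HyperplaneCoverings` of helper190 is the other case: arbitrary degrees, but
either the cyclotomic polynomial is irreducible over the field of the eigenvalues of `Z`, or the level
of `Z` is smaller than the dimensions of the `X_i`. Here, for large prime degrees, there is no condition
on `Z` but on the size of its Betti numbers.

The proof. Let `α_i` be eigenvalues of the Frobenius on the parts `T_i`, for `i` in a nonempty set `I`,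
with the characters `j_i` of the covering groups, and suppose that `β ∏ α_i` is a power of `q` times a
root of unity. There are `b + 1` automorphisms `σ_k` of the field of algebraic numbers
such that `σ_k j_i` are among the integers between `0` and `N_i / A_i`, and such that for any two of
them there is an automorphism `τ` for which the `τ σ_k j_i` are again in this interval and the
`τ σ_l j_i` in its negative (theorem of Thue). By the theorem of Stickelberger on Gauss sums,
`∏ τ σ_k α_i` and `∏ τ σ_l α_i` have different `c`-adic valuations, so `σ_k β ≠ σ_l β`. So `β` has `b + 1`
different conjugates with small slopes, and with the complex conjugates `2 b + 2` different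
conjugates. So there are no such relations, the algebraic classes on the product are
combinations of products of algebraic classes on the `X_i` with algebraic classes on `Z`, and the
intersection form on the algebraic classes of the `X_i` is not degenerate.

helper222 (`Pool/Agent/U222/SL`); the geometric part is the library of helper876 (`N876/FL/Geo3`) with
definitions adapted from helper190 (`U190/HC/Defs`); the slopes on cyclic coverings: helper876 (`N876/TC`) and
the estimates of sums over hyperplane arrangements by Gauss sums (helper528 and others). The idea of
large prime degrees is due to helper231.
-/

set_option autoImplicit false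

universe u

namespace Pool.Agent.Results.MP_f569db_ag.LargePrimeCoverings

open Pool.Agent.H914 Pool.Agent.H281R3.HT Pool.Agent.TH125.Gal Pool.Agent.U222.SL.Geo

/-- **The conjecture D for products of arbitrary varieties with cyclic coverings of large prime
degrees branched along hyperplanes.** -/
theorem result (c : ℕ) [Fact c.Prime] (κ : Type) [Field κ] [Fintype κ] [CharP κ c] (f : ℕ)
    (hf : Fintype.card κ = c ^ f) {ι : Type} [Fintype ι] (C : ι → Covering κ) (lam b : ℕ)
    {k : Type u} [Field k] {𝒱 : VarClass k} {ops : CycleOps 𝒱} (W : WeilCohomology.{u, 0} ops)
    [IsAlgClosed W.K] (τ : W.K →+* ℂ) {Γ : Type} [Group Γ] (χ : Γ →* W.Kˣ) (G : Set (GVar W Γ))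
    (X : ι → GVar W Γ) (Z : GVar W Γ) (σ : Γ) :
    -- the conjecture D
    (IsLargeSystem C c lam b χ G X Z σ τ → ∀ L : List ι, L.Nodup →
      (HomEqNum W (productOf X (fun _ => 0) ⟨Z.X, 0⟩ L).X ↔ HomEqNum W Z.X)) ∧
    -- the condition on the eigenvalues of `Z` is satisfied if their degrees are at most `2 b + 1`
    -- or the level is at most `lam`
    (∀ N : ℕ, (∀ β ∈ eigenvalues (frobenius Z σ) τ,
        (IsAlgebraic ℚ β ∧ ∃ d : ℕ, ‖β‖ ^ 2 = (Fintype.card κ : ℝ) ^ d) ∧
        ((minpoly ℚ β).natDegree ≤ 2 * b + 1 ∨
          IsIntegral ℤ ((Fintype.card κ : ℂ) ^ lam * β / starRingEnd ℂ β))) →
      IsFewBase c (Fintype.card κ) N lam b (eigenvalues (frobenius Z σ) τ)) := by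
  refine ⟨?_, ?_⟩
  · intro h L hL
    obtain ⟨S, hS⟩ := exists_large c κ C f lam b hf h
    rw [productOf_eq]
    exact hS.homEqNum_tow (fun _ => 0) 0 hL
  · intro N h
    exact isFewBase_of Fintype.one_lt_card (fun β hβ => (h β hβ).1) (fun β hβ => (h β hβ).2)

end Pool.Agent.Results.MP_f569db_ag.LargePrimeCoverings
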